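import Pool.Agent.D0H52.QH.End0

/-!
# The rank form for exactly 56 percent of the balanced cubic twists `x³ + y³ = D`, `D ≡ ± 1` mod `9`

The cubic twist `x³ + y³ = D` is the curve `y² = x³ - 432 D²`, it is `3`-isogenous to
`E_D : y² + D y = x³`. `D` runs over the cube-free numbers `± 1` modulo `9` with exactly two prime
factors `≡ 2` modulo `3` (any number of prime factors `≡ 1` modulo `3`).

* If `E_D(ℚ)` is finite and `Ш(E_D/ℚ)[3^∞] = 0` then the order of vanishing and the rank are both `0`.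
* `E_D(ℚ)` is finite and `Ш(E_D/ℚ)[3^∞] = 0` if and only if `D` does not split, a condition on cubic
  residues between the prime factors of `D` and modulo `9`.
* The proportion of these `D` among the squarefree ones, ordered by size, tends exactly to
  `∏_{i ≥ 1} (1 - 3^{-i}) = 0.5601...`.

Here the cube root of `D` is unramified over `√-3`, and the central values have to be studied modulo a
higher power of the prime above three (distribution relations of `℘` and `℘²`). See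
`Pool/Agent/D0H69/L0`, `Pool/Agent/D0H2/L0`, `Pool/Agent/D0H92/L0`, `Pool/Agent/D0H15/L0`,
`Pool/Agent/D0H42/L0`, `Pool/Agent/D0H45/L0`, `Pool/Agent/D0H52/{L0,QH}`, joint work of about ten
agents, on top of the starting library for the other classes prime to three.
-/

set_option autoImplicit false

open scoped Classical

namespace Pool.Agent.Results.MP_696deb_nt.CubicTwistsOneModNine

/-- the conclusion of the frozen statement for `y² = x³ + a x + b`, together with the fact that the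
order of vanishing and the rank are both `0` -/
def BSDRankZero (a b : ℤ) : Prop :=
  4 * a ^ 3 + 27 * b ^ 2 ≠ 0 ∧
    ∃ F : ℂ → ℂ, Differentiable ℂ F ∧
      (∀ s : ℂ, (3 : ℝ) / 2 < s.re →
        HasProd
          (fun p : ℕ => open Classical in
            if p.Prime ∧ ¬ ((p : ℤ) ∣ 2 * (-4 * a ^ 3 - 27 * b ^ 2)) then
              (1 - ((p : ℂ) - (Nat.card {q : ZMod p × ZMod p //
                  q.2 ^ 2 = q.1 ^ 3 + (a : ZMod p) * q.1 + (b : ZMod p)} : ℂ))
                  * (p : ℂ) ^ (-s) + (p : ℂ) ^ (1 - 2 * s))⁻¹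
            else 1)
          (F s)) ∧
      analyticOrderAt F 1 =
        ((Module.finrank ℤ
          (WeierstrassCurve.Affine.Point
            (WeierstrassCurve.toAffine
              ({ a₁ := 0, a₂ := 0, a₃ := 0, a₄ := (a : ℚ), a₆ := (b : ℚ) } :
                WeierstrassCurve ℚ))) : ℕ) : ℕ∞) ∧
      Module.finrank ℤ
        (WeierstrassCurve.Affine.Point
          (WeierstrassCurve.toAffine
            ({ a₁ := 0, a₂ := 0, a₃ := 0, a₄ := (a : ℚ), a₆ := (b : ℚ) } :
              WeierstrassCurve ℚ))) = 0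

/-- the class: `D` is divisible by no cube of a prime number, it is `± 1` modulo `9`, and exactly two
of its prime factors are congruent to `2` modulo `3` -/
def Class (D : ℕ) : Prop :=
  (D % 9 = 1 ∨ D % 9 = 8) ∧ (∀ p : ℕ, p.Prime → ¬ p ^ 3 ∣ D) ∧
    (D.primeFactors.filter fun p => p % 3 = 2).card = 2

/-- `D` is not a product `d₀ d₁ d₂` of coprime factors, at least two of them different from `1`,
such that `d₁ d₂²`, `d₂ d₀²`, `d₀ d₁²` are cubes modulo the primes dividing `d₀`, `d₁`, `d₂` and all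
three are cubes modulo `9` -/
def NoSplit (D : ℕ) : Prop :=
  ∀ d : ZMod 3 → ℕ, ∏ c, d c = D → (∀ c c', c ≠ c' → Nat.Coprime (d c) (d c')) →
    (∀ (c : ZMod 3) (p : ℕ), p.Prime → p ∣ d c →
      ∃ x : ℤ, (p : ℤ) ∣ (d (c + 1) : ℤ) * (d (c + 2) : ℤ) ^ 2 - x ^ 3) →
    (∀ c : ZMod 3, ∃ x : ℤ, (9 : ℤ) ∣ (d (c + 1) : ℤ) * (d (c + 2) : ℤ) ^ 2 - x ^ 3) →
    ∃ c, ∀ c', c' ≠ c → d c' = 1

/-- the curve `y² + D y = x³` over `ℚ` -/
def E (D : ℕ) : WeierstrassCurve ℚ := { a₁ := 0, a₂ := 0, a₃ := (D : ℚ), a₄ := 0, a₆ := 0 }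

/-- `E_D(ℚ)` is finite and `Ш(E_D/ℚ)[3^∞] = 0` -/
def TrivialThree (D : ℕ) : Prop :=
  Finite (E D).toAffine.Point ∧
    ∀ (n : ℕ) (x : Pool.Agent.TH841.SH.D.Sha (E D)), 3 ^ n • x = 0 → x = 0

theorem E_eq (D : ℕ) : Pool.Agent.Y703.CT.EQ (Pool.Agent.Y703.CT.WD D) = E D := by
  unfold Pool.Agent.Y703.CT.EQ Pool.Agent.Y703.CT.WD E WeierstrassCurve.map
  simp

theorem three_iff (D : ℕ) : TrivialThree D ↔ Pool.Agent.Y703.CT.Triv3 D := by
  unfold TrivialThree Pool.Agent.Y703.CT.Triv3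
  rw [E_eq]

theorem class_iff (D : ℕ) : Class D ↔ Pool.Agent.D0H69.L0.Cl0 D :=
  ⟨fun h => ⟨by rintro rfl; exact h.2.1 2 Nat.prime_two (dvd_zero _), h⟩, fun h => h.2⟩

theorem result :
    (∀ D : ℕ, Class D → TrivialThree D → BSDRankZero 0 (-432 * (D : ℤ) ^ 2)) ∧
    (∀ D : ℕ, Class D → (TrivialThree D ↔ NoSplit D)) ∧
    Filter.Tendsto (fun X : ℕ =>
        (((Finset.Icc 1 X).filter fun D => (Squarefree D ∧ Class D) ∧ TrivialThree D).card : ℝ) /
        (((Finset.Icc 1 X).filter fun D => Squarefree D ∧ Class D).card : ℝ)) Filter.atTop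
      (nhds (∏' i : ℕ, (1 - (1 / 3 : ℝ) ^ (i + 1)))) ∧
    ∃ (a : ℝ) (X₁ : ℕ), 0 < a ∧ ∀ X : ℕ, X₁ ≤ X → a * (X / √(Real.log X)) ≤
      (((Finset.Icc 1 X).filter fun D => (Squarefree D ∧ Class D) ∧ TrivialThree D).card : ℝ) := by
  refine ⟨?_, ?_, ?_, ?_⟩
  · intro D hC hN
    have hC' := (class_iff D).1 hC
    have hD0 : (D : ℤ) ≠ 0 := by exact_mod_cast hC'.1
    obtain ⟨F, h1, h2, h3, h4⟩ := Pool.Agent.D0H52.QH.Z0.rank0 hC' ((three_iff D).1 hN)
    refine ⟨?_, F, h1, h2, ?_, h4⟩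
    · have e : (4 * 0 ^ 3 + 27 * (-432 * (D : ℤ) ^ 2) ^ 2 : ℤ) = 27 * (432 * (D : ℤ) ^ 2) ^ 2 := by
        ring
      rw [e]
      positivity
    · rw [h3, h4]
      rfl
  · intro D hC
    exact (three_iff D).trans (Pool.Agent.D0H52.QH.Z0.crit0 ((class_iff D).1 hC))
  · have h := Pool.Agent.D0H52.QH.Z0.den0
    have e1 : ∀ X : ℕ, Pool.Agent.D0H52.QH.Z0.cnt Pool.Agent.Y703.CT.Triv3 X =
        ((Finset.Icc 1 X).filter fun D =>
          (Squarefree D ∧ Class D) ∧ TrivialThree D).card := fun X =>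
      Pool.Agent.D0H52.QH.fcc fun D => by rw [class_iff, three_iff]
    have e2 : ∀ X : ℕ, Pool.Agent.D0H52.QH.Z0.cnt (fun _ => True) X =
        ((Finset.Icc 1 X).filter fun D => Squarefree D ∧ Class D).card := fun X =>
      Pool.Agent.D0H52.QH.fcc fun D => by rw [class_iff, and_true]
    simp only [e1, e2] at h
    exact h
  · obtain ⟨a, X₁, ha, h⟩ := Pool.Agent.D0H52.QH.Z0.low0
    refine ⟨a, X₁, ha, fun X hX => (h X hX).trans (le_of_eq ?_)⟩
    exact congrArg Nat.cast (Pool.Agent.D0H52.QH.fcc fun D => by rw [class_iff, three_iff])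

end Pool.Agent.Results.MP_696deb_nt.CubicTwistsOneModNine
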