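import Pool.Agent.D0H40.KX.CurveK3

/-!
# A family of products between the rank form and the original product of Birch and Swinnerton-Dyer

`E : y² = x³ + a x + b` is an elliptic curve over `ℚ`, `a, b ∈ ℤ`, `N_p` is the number of points modulo `p`
(with the point at infinity), `F` is the entire continuation of the incomplete `L`-series and
`m = ord_{s=1} F`.  For a real number `k > 1` consider the finite products

`P_k(X) = ∏_{p ≤ X, p ∤ 2Δ} (N_p / p) ^ exp (-(log p)^k / (log X)^(k-1))`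

and, for real `τ`, the finite sums
`W_{k,τ}(X) = ∑_{p ≤ X, p ∤ 2Δ} exp (-(1 + iτ) (log p)^k / (log X)^(k-1)) log (N_p / p)`, so that
`W_{k,0} = log P_k`.  As `k → ∞` the weights tend to the indicator of `p < X`, so that `P_k` becomes the
original product, whose asymptotic behaviour involves the Riemann hypothesis (Goldfeld 1982).  The behaviour of
`P_k` is decided by the zeros of `F` in the sector `S_k` of half-angle `(π/2)(1 - 1/k)` with vertex `1`, and that
of `W_{k,τ}` by the zeros in the turned sector `S_{k,τ} : |arg (s-1) - arctan τ / k| < (π/2)(1 - 1/k)`.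

* Explicit formula: for every curve, every `k > 1` and every `τ`, with finitely many zeros and a bounded error.
* Growth: for `η ≥ 0`, `|W_{k,τ}(X)| ≤ X^(η + o(1))` if and only if every zero `s` in `S_{k,τ}` has
  `rate_{k,τ}(s) ≤ η`; for `τ = 0` the one-sided bound `log P_k(X) ≤ X^(η + o(1))` is enough.
* `P_k(X) ≤ (log X)^(ρ + o(1))` if and only if `(1 - 1/k) m ≤ ρ` and `S_k` contains no zero; then
  `P_k(X)` is between constant multiples of `(log X)^((1-1/k) m)`.
* The Riemann hypothesis for `F` holds if and only if this law holds for all `k > 1`; otherwise there is a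
  threshold `k_c` such that it holds exactly for `k ≤ k_c`; `k_c > 1` if and only if `F` has no real zero `> 1`.
* Unconditionally, for every curve there are `τ` and `k₀ > 1` such that
  `W_{k,τ}(X) = (1 - 1/k) m log log X + O(1)` for `1 < k ≤ k₀`.  Hence the rank form of the conjecture for `E`
  is equivalent to: `W_{k,τ}(X) / log log X → (1 - 1/k) rank` for some `k > 1` and some `τ`.
* If `F` has no real zero `> 1`, the rank form is equivalent to:
  `P_k(X)` is between constant multiples of `(log X)^((1-1/k) rank)` for some `k > 1`.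
-/

set_option autoImplicit false

namespace Pool.Agent.Results.MP_696deb_nt.ExponentFamily

open Filter Topology Classical

/-- `N_p`: the number of points of `y² = x³ + a x + b` modulo `p`, with the point at infinity. -/
noncomputable def numPoints (a b : ℤ) (p : ℕ) : ℕ :=
  Nat.card {q : ZMod p × ZMod p // q.2 ^ 2 = q.1 ^ 3 + (a : ZMod p) * q.1 + (b : ZMod p)} + 1

/-- `p` is a prime that does not divide `2 Δ`, where `Δ = -4 a³ - 27 b²`. -/
def Good (a b : ℤ) (p : ℕ) : Prop :=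
  p.Prime ∧ ¬ ((p : ℤ) ∣ 2 * (-4 * a ^ 3 - 27 * b ^ 2))

/-- `F` is an entire function which for `Re s > 3/2` is the incomplete `L`-series
`∏_{p ∤ 2Δ} (1 - a_p p^{-s} + p^{1-2s})⁻¹`, `a_p = p + 1 - N_p`, of `y² = x³ + a x + b`. -/
def IsLSeries (a b : ℤ) (F : ℂ → ℂ) : Prop :=
  Differentiable ℂ F ∧ ∀ s : ℂ, (3 : ℝ) / 2 < s.re →
    HasProd (fun p : ℕ => if Good a b p then
      (1 - ((p : ℂ) + 1 - (numPoints a b p : ℂ)) * (p : ℂ) ^ (-s) + (p : ℂ) ^ (1 - 2 * s))⁻¹ else 1)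
      (F s)

/-- `W_{k,τ}(X) = ∑_{p ≤ X, p ∤ 2Δ} exp (-(1 + iτ) (log p)^k / (log X)^(k-1)) log (N_p / p)` -/
noncomputable def wSum (a b : ℤ) (k τ X : ℝ) : ℂ :=
  ∑ p ∈ (Finset.range (⌊X⌋₊ + 1)).filter (Good a b),
    Complex.exp (-((1 + τ * Complex.I) * ((Real.log p) ^ k / (Real.log X) ^ (k - 1) : ℝ))) *
      (Real.log ((numPoints a b p : ℝ) / p) : ℝ)

/-- `P_k(X) = ∏_{p ≤ X, p ∤ 2Δ} (N_p / p) ^ exp (-(log p)^k / (log X)^(k-1))` -/
noncomputable def wProd (a b : ℤ) (k X : ℝ) : ℝ :=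
  ∏ p ∈ (Finset.range (⌊X⌋₊ + 1)).filter (Good a b),
    ((numPoints a b p : ℝ) / p) ^ Real.exp (-((Real.log p) ^ k / (Real.log X) ^ (k - 1)))

/-- The sector `S_{k,τ}`: `s ≠ 1`, `|arg (s-1) - arctan τ / k| < (π/2)(1 - 1/k)`. -/
def Sector (k τ : ℝ) : Set ℂ :=
  {s | s ≠ 1 ∧ |Complex.arg (s - 1) - Real.arctan τ / k| < Real.pi / 2 * (1 - 1 / k)}

/-- The rate of growth that belongs to a zero `s = 1 + r e^{iφ}` in the sector:
`(k-1) (r/k)^(k/(k-1)) (1+τ²)^(-1/(2(k-1))) cos ((k/(k-1)) (φ - arctan τ / k))`. -/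
noncomputable def rate (k τ : ℝ) (s : ℂ) : ℝ :=
  (k - 1) * (‖s - 1‖ / k) ^ (k / (k - 1)) / √(1 + τ ^ 2) ^ (1 / (k - 1)) *
    Real.cos (k / (k - 1) * (Complex.arg (s - 1) - Real.arctan τ / k))

/-- The contribution of a zero: `T_s(X) = ∫_0^∞ (X^((s-1)v) - 1) X^(-(1+iτ) v^k) dv / v`. -/
noncomputable def zeroTerm (k τ : ℝ) (s : ℂ) (X : ℝ) : ℂ :=
  ∫ v in Set.Ioi (0 : ℝ), (Complex.exp ((s - 1) * v * Real.log X) - 1) / v *
    Complex.exp (-((1 + τ * Complex.I) * ((v ^ k : ℝ) : ℂ) * Real.log X))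

/-- the rank of the group of rational points of `y² = x³ + a x + b` -/
noncomputable def rank (a b : ℤ) : ℕ :=
  Module.finrank ℤ
    (WeierstrassCurve.Affine.Point
      (WeierstrassCurve.toAffine
        ({ a₁ := 0, a₂ := 0, a₃ := 0, a₄ := (a : ℚ), a₆ := (b : ℚ) } : WeierstrassCurve ℚ)))

/-- `A(X)` is between constant multiples of `(log X)^ρ`. -/
def Comparable (A : ℝ → ℝ) (ρ : ℝ) : Prop :=
  ∃ C : ℝ, 0 < C ∧ ∀ᶠ X : ℝ in atTop, C⁻¹ * Real.log X ^ ρ ≤ A X ∧ A X ≤ C * Real.log X ^ ρ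

/-! ### Translation to the definitions of the imported files -/

variable {a b : ℤ} {F : ℂ → ℂ} {k : ℝ}

theorem numPoints_sub (p : ℕ) : (p : ℂ) + 1 - (numPoints a b p : ℂ) =
    (p : ℂ) - (Pool.Agent.W263.BSD.pointCount a b p : ℂ) := by
  unfold numPoints Pool.Agent.W263.BSD.pointCount
  push_cast
  ring

theorem isLSeries (hF : IsLSeries a b F) : Pool.Agent.W263.BSD.IsLSeries a b F := by
  refine ⟨hF.1, fun s hs => ?_⟩
  have h := hF.2 s hs
  simp only [numPoints_sub] at h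
  exact h

theorem wSum_eq (k τ X : ℝ) : wSum a b k τ X = Pool.Agent.D0H40.KX.wk a b k τ X := by
  unfold wSum Pool.Agent.D0H40.KX.wk
  refine Finset.sum_congr rfl fun p _ => ?_
  unfold numPoints Pool.Agent.W263.BSD.pointCount
  push_cast
  rfl

theorem quot_pos {p : ℕ} (hp : Good a b p) : 0 < (numPoints a b p : ℝ) / p := by
  have h1 : (0 : ℝ) < p := by exact_mod_cast hp.1.pos
  have h2 : (0 : ℝ) < numPoints a b p := by
    unfold numPoints
    push_cast
    positivity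
  positivity

theorem wProd_pos (k X : ℝ) : 0 < wProd a b k X := by
  unfold wProd
  refine Finset.prod_pos fun p hp => ?_
  exact Real.rpow_pos_of_pos (quot_pos (Finset.mem_filter.1 hp).2) _

/-- `W_{k,0} = log P_k` -/
theorem wSum_zero (k X : ℝ) : wSum a b k 0 X = (Real.log (wProd a b k X) : ℝ) := by
  unfold wProd wSum
  rw [Real.log_prod fun p hp => (Real.rpow_pos_of_pos (quot_pos (Finset.mem_filter.1 hp).2) _).ne',
    Complex.ofReal_sum]
  refine Finset.sum_congr rfl fun p hp => ?_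
  rw [Real.log_rpow (quot_pos (Finset.mem_filter.1 hp).2)]
  push_cast
  simp

theorem sector_iff (k τ : ℝ) (s : ℂ) : s ∈ Sector k τ ↔ s - 1 ∈ Pool.Agent.D0H40.KX.Sec k τ := by
  unfold Sector Pool.Agent.D0H40.KX.Sec Pool.Agent.D0H40.KX.bt Pool.Agent.D0H40.KX.fc
  simp only [Set.mem_ofPred_eq]
  rw [Ne, Ne, sub_eq_zero]

theorem free_iff (k τ : ℝ) : (∀ s ∈ Sector k τ, F s ≠ 0) ↔
    ∀ w ∈ Pool.Agent.D0H40.KX.Sec k τ, F (1 + w) ≠ 0 := by
  constructor
  · intro h w hw
    refine h (1 + w) ?_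
    rw [sector_iff, add_sub_cancel_left]
    exact hw
  · intro h s hs
    have := h (s - 1) ((sector_iff k τ s).1 hs)
    rwa [add_sub_cancel] at this

theorem rate_eq (k τ : ℝ) (w : ℂ) : rate k τ (1 + w) = Pool.Agent.D0H40.KX.rate k τ w := by
  unfold rate Pool.Agent.D0H40.KX.rate Pool.Agent.D0H40.KX.Mz Pool.Agent.D0H40.KX.qk
    Pool.Agent.D0H40.KX.qq Pool.Agent.D0H40.KX.kp Pool.Agent.D0H40.KX.bt
  rw [add_sub_cancel_left]

theorem zeroTerm_eq (k τ : ℝ) (w : ℂ) (X : ℝ) :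
    zeroTerm k τ (1 + w) X = Pool.Agent.D0H40.KX.zterm k τ w X := by
  unfold zeroTerm Pool.Agent.D0H40.KX.zterm
  rw [add_sub_cancel_left]

theorem loglog_tendsto : Tendsto (fun X : ℝ => Real.log (Real.log X)) atTop atTop :=
  Real.tendsto_log_atTop.comp Real.tendsto_log_atTop

/-- the explicit formula -/
theorem explicit (hk : 1 < k) (hF : IsLSeries a b F) {m : ℕ} (hm : analyticOrderAt F 1 = m) (τ : ℝ) :
    ∃ Z : Finset ℂ, (∀ s, s ∈ Z ↔ s ∈ Sector k τ ∧ F s = 0) ∧
      ∃ C : ℝ, ∀ᶠ X : ℝ in atTop, ‖wSum a b k τ X -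
        ((1 - 1 / k) * (m + ∑ s ∈ Z, (analyticOrderNatAt F s : ℂ)) * (Real.log (Real.log X) : ℝ) +
          ∑ s ∈ Z, (analyticOrderNatAt F s : ℂ) * zeroTerm k τ s X)‖ ≤ C := by
  have hfin := Pool.Agent.D0H40.KX.zeros_fin hk (isLSeries hF) τ
  set Y : Finset ℂ := hfin.toFinset with hY
  have hYm : ∀ w, w ∈ Y ↔ w ∈ Pool.Agent.D0H40.KX.Sec k τ ∧ F (1 + w) = 0 := by
    intro w
    rw [hY, Set.Finite.mem_toFinset]
    rfl
  obtain ⟨C, hC⟩ := Pool.Agent.D0H40.KX.expl_curve hk (isLSeries hF) hm τ Y hYm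
  have hinj : Set.InjOn (fun w : ℂ => 1 + w) (Y : Set ℂ) := fun z _ w _ h => add_left_cancel h
  refine ⟨Y.image (fun w => 1 + w), fun s => ?_, C, ?_⟩
  · rw [Finset.mem_image]
    constructor
    · rintro ⟨w, hw, rfl⟩
      rw [sector_iff, add_sub_cancel_left]
      exact (hYm w).1 hw
    · rintro ⟨h1, h2⟩
      refine ⟨s - 1, (hYm _).2 ⟨(sector_iff _ _ _).1 h1, by rwa [add_sub_cancel]⟩, by ring⟩
  · filter_upwards [hC] with X h
    rw [Finset.sum_image hinj, Finset.sum_image hinj, wSum_eq]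
    simp only [zeroTerm_eq]
    refine le_trans (le_of_eq ?_) h
    congr 2
    push_cast
    ring

/-- the law when there are no zeros in the sector -/
theorem law_of_free (hk : 1 < k) (hF : IsLSeries a b F) {m : ℕ} (hm : analyticOrderAt F 1 = m) (τ : ℝ)
    (h : ∀ s ∈ Sector k τ, F s ≠ 0) : ∃ C : ℝ, ∀ᶠ X : ℝ in atTop,
      ‖wSum a b k τ X - (((1 - 1 / k) * m * Real.log (Real.log X) : ℝ) : ℂ)‖ ≤ C := by
  simp only [wSum_eq]
  exact Pool.Agent.D0H40.KX.law_curve hk (isLSeries hF) hm τ ((free_iff k τ).1 h)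

theorem log_le_eps (C : ℝ) {ε : ℝ} (hε : 0 < ε) :
    ∀ᶠ X : ℝ in atTop, C * Real.log (Real.log X) + C ≤ X ^ ε := by
  have hlog : Tendsto Real.log atTop atTop := Real.tendsto_log_atTop
  filter_upwards [Pool.Agent.D0H40.KX.log_small |C| hε, hlog.eventually (eventually_ge_atTop 1)]
    with X h1 h2
  have h3 := Real.log_le_sub_one_of_pos (show 0 < Real.log X by linarith)
  have h4 : 0 ≤ Real.log (Real.log X) := Real.log_nonneg h2
  have h5 := le_abs_self C
  have h6 : C * Real.log (Real.log X) ≤ |C| * Real.log X := by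
    calc C * Real.log (Real.log X) ≤ |C| * Real.log (Real.log X) :=
          mul_le_mul_of_nonneg_right h5 h4
      _ ≤ |C| * Real.log X := mul_le_mul_of_nonneg_left (by linarith) (abs_nonneg C)
  linarith

/-- the growth theorem -/
theorem growth (hk : 1 < k) (hF : IsLSeries a b F) (τ η : ℝ) (hη : 0 ≤ η) :
    (∀ s ∈ Sector k τ, F s = 0 → rate k τ s ≤ η) ↔
      ∀ ε : ℝ, 0 < ε → ∀ᶠ X : ℝ in atTop, ‖wSum a b k τ X‖ ≤ X ^ (η + ε) := by
  simp only [wSum_eq]
  constructor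
  · intro h ε hε
    refine Pool.Agent.D0H40.KX.wk_up hk (isLSeries hF) τ hη (fun w hw h0 => ?_) hε
    rw [← rate_eq]
    refine h _ ?_ h0
    rw [sector_iff, add_sub_cancel_left]
    exact hw
  · intro h s hs h0
    have h1 : 1 + (s - 1) = s := by ring
    have h2 := Pool.Agent.D0H40.KX.wk_rev hk (isLSeries hF) τ hη h ((sector_iff k τ s).1 hs)
      (by rw [h1]; exact h0)
    rwa [← rate_eq, h1] at h2

/-- the one-sided growth theorem -/
theorem growth_one (hk : 1 < k) (hF : IsLSeries a b F) (η : ℝ) (hη : 0 ≤ η) :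
    (∀ s ∈ Sector k 0, F s = 0 → rate k 0 s ≤ η) ↔
      ∀ ε : ℝ, 0 < ε → ∀ᶠ X : ℝ in atTop, Real.log (wProd a b k X) ≤ X ^ (η + ε) := by
  constructor
  · intro h ε hε
    filter_upwards [(growth hk hF 0 η hη).1 h ε hε] with X h1
    rw [wSum_zero, Complex.norm_real] at h1
    exact (le_abs_self _).trans h1
  · intro h s hs h0
    have h1 : 1 + (s - 1) = s := by ring
    have h2 := Pool.Agent.D0H40.KX.wk_one hk (isLSeries hF) hη (fun ε hε => by
      filter_upwards [h ε hε] with X h1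
      rw [← wSum_eq, wSum_zero, Complex.ofReal_re]
      exact h1) ((sector_iff k 0 s).1 hs) (by rw [h1]; exact h0)
    rwa [← rate_eq, h1] at h2

theorem rate_pos (hk : 1 < k) {τ : ℝ} {s : ℂ} (hs : s ∈ Sector k τ) : 0 < rate k τ s := by
  have h1 : 1 + (s - 1) = s := by ring
  have h2 := Pool.Agent.D0H40.KX.rate_pos hk ((sector_iff k τ s).1 hs)
  rwa [← rate_eq, h1] at h2

/-- bounds smaller than all powers of `X` exclude zeros -/
theorem free_of_small (hk : 1 < k) (hF : IsLSeries a b F) (τ : ℝ)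
    (h : ∀ ε : ℝ, 0 < ε → ∀ᶠ X : ℝ in atTop, ‖wSum a b k τ X‖ ≤ X ^ ε) :
    ∀ s ∈ Sector k τ, F s ≠ 0 := by
  intro s hs h0
  have h1 := (growth hk hF τ 0 le_rfl).2 (fun ε hε => by simpa using h ε hε) s hs h0
  have := rate_pos hk hs
  linarith

theorem free_of_small_one (hk : 1 < k) (hF : IsLSeries a b F)
    (h : ∀ ε : ℝ, 0 < ε → ∀ᶠ X : ℝ in atTop, Real.log (wProd a b k X) ≤ X ^ ε) :
    ∀ s ∈ Sector k 0, F s ≠ 0 := by
  intro s hs h0
  have h1 := (growth_one hk hF 0 le_rfl).2 (fun ε hε => by simpa using h ε hε) s hs h0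
  have := rate_pos hk hs
  linarith

theorem real_law {c C X : ℝ}
    (h : ‖wSum a b k 0 X - ((c * Real.log (Real.log X) : ℝ) : ℂ)‖ ≤ C) :
    |Real.log (wProd a b k X) - c * Real.log (Real.log X)| ≤ C := by
  rw [wSum_zero, ← Complex.ofReal_sub, Complex.norm_real] at h
  exact h

/-- from the logarithmic form to the multiplicative form -/
theorem comparable_of {c C : ℝ}
    (h : ∀ᶠ X : ℝ in atTop, |Real.log (wProd a b k X) - c * Real.log (Real.log X)| ≤ C) :
    Comparable (wProd a b k) c := by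
  have hlog : Tendsto Real.log atTop atTop := Real.tendsto_log_atTop
  refine ⟨Real.exp C, Real.exp_pos _, ?_⟩
  filter_upwards [h, hlog.eventually (eventually_gt_atTop 0)] with X h2 h5
  have h4 := abs_le.1 h2
  have e1 : wProd a b k X = Real.exp (Real.log (wProd a b k X)) := (Real.exp_log (wProd_pos k X)).symm
  have e2 : Real.log X ^ c = Real.exp (c * Real.log (Real.log X)) := by
    rw [Real.rpow_def_of_pos h5, mul_comm]
  rw [e1, e2, ← Real.exp_neg, ← Real.exp_add, ← Real.exp_add]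
  constructor
  · apply Real.exp_le_exp.2
    linarith [h4.1]
  · apply Real.exp_le_exp.2
    linarith [h4.2]

theorem of_comparable {c : ℝ} (h : Comparable (wProd a b k) c) :
    ∃ C : ℝ, ∀ᶠ X : ℝ in atTop, |Real.log (wProd a b k X) - c * Real.log (Real.log X)| ≤ C := by
  obtain ⟨C, hC0, hC⟩ := h
  have hlog : Tendsto Real.log atTop atTop := Real.tendsto_log_atTop
  refine ⟨|Real.log C|, ?_⟩
  filter_upwards [hC, hlog.eventually (eventually_gt_atTop 0)] with X h2 h5
  have h5' : 0 < Real.log X ^ c := Real.rpow_pos_of_pos h5 _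
  have h8 := Real.log_le_log (by positivity) h2.1
  have h9 := Real.log_le_log (wProd_pos k X) h2.2
  rw [Real.log_mul (inv_pos.2 hC0).ne' h5'.ne', Real.log_inv, Real.log_rpow h5] at h8
  rw [Real.log_mul hC0.ne' h5'.ne', Real.log_rpow h5] at h9
  have h10 := le_abs_self (Real.log C)
  rw [abs_le]
  constructor <;> linarith

/-- a bound by a power of `log X` is smaller than all powers of `X` -/
theorem small_of_power {ρ : ℝ} (h : ∀ᶠ X : ℝ in atTop, wProd a b k X ≤ Real.log X ^ ρ)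
    {ε : ℝ} (hε : 0 < ε) : ∀ᶠ X : ℝ in atTop, Real.log (wProd a b k X) ≤ X ^ ε := by
  have hlog : Tendsto Real.log atTop atTop := Real.tendsto_log_atTop
  filter_upwards [h, log_le_eps |ρ| hε, hlog.eventually (eventually_ge_atTop 1)] with X h1 h2 h3
  have h4 : 0 ≤ Real.log (Real.log X) := Real.log_nonneg h3
  have h5 : Real.log (wProd a b k X) ≤ ρ * Real.log (Real.log X) := by
    have := Real.log_le_log (wProd_pos k X) h1
    rwa [Real.log_rpow (by linarith)] at this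
  have h6 : ρ * Real.log (Real.log X) ≤ |ρ| * Real.log (Real.log X) :=
    mul_le_mul_of_nonneg_right (le_abs_self _) h4
  have h7 := abs_nonneg ρ
  linarith

/-- upper bounds by powers of `log X` -/
theorem power_iff (hk : 1 < k) (hF : IsLSeries a b F) {m : ℕ} (hm : analyticOrderAt F 1 = m) (ρ : ℝ) :
    (∀ ε : ℝ, 0 < ε → ∀ᶠ X : ℝ in atTop, wProd a b k X ≤ Real.log X ^ (ρ + ε)) ↔
      (∀ s ∈ Sector k 0, F s ≠ 0) ∧ (1 - 1 / k) * m ≤ ρ := by
  have hlog : Tendsto Real.log atTop atTop := Real.tendsto_log_atTop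
  constructor
  · intro h
    have hfree : ∀ s ∈ Sector k 0, F s ≠ 0 :=
      free_of_small_one hk hF fun ε hε => small_of_power (h 1 one_pos) hε
    refine ⟨hfree, ?_⟩
    obtain ⟨C, hC⟩ := law_of_free hk hF hm 0 hfree
    by_contra hc
    push Not at hc
    obtain ⟨ε, hε⟩ : ∃ ε : ℝ, ε = ((1 - 1 / k) * m - ρ) / 2 := ⟨_, rfl⟩
    have hε0 : 0 < ε := by rw [hε]; linarith
    obtain ⟨X, h1, h2, h3, h4⟩ := ((h ε hε0).and (hC.and
      ((hlog.eventually (eventually_gt_atTop 1)).and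
        (loglog_tendsto.eventually (eventually_gt_atTop (C / ε)))))).exists
    have h5 := (abs_le.1 (real_law h2)).1
    have h6 : Real.log (wProd a b k X) ≤ (ρ + ε) * Real.log (Real.log X) := by
      have := Real.log_le_log (wProd_pos k X) h1
      rwa [Real.log_rpow (by linarith)] at this
    rw [div_lt_iff₀ hε0] at h4
    have e : (1 - 1 / k) * m = ρ + ε + ε := by rw [hε]; ring
    rw [e] at h5
    have h7 : (ρ + ε + ε) * Real.log (Real.log X) =
      (ρ + ε) * Real.log (Real.log X) + Real.log (Real.log X) * ε := by ring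
    rw [h7] at h5
    linarith
  · rintro ⟨hfree, hρ⟩ ε hε
    obtain ⟨C, hC⟩ := law_of_free hk hF hm 0 hfree
    filter_upwards [hC, hlog.eventually (eventually_gt_atTop 1),
      loglog_tendsto.eventually (eventually_gt_atTop (C / ε))] with X h1 h2 h3
    have h4 := (abs_le.1 (real_law h1)).2
    have h5 : 0 < Real.log (Real.log X) := Real.log_pos h2
    rw [← Real.log_le_log_iff (wProd_pos k X) (Real.rpow_pos_of_pos (by linarith) _),
      Real.log_rpow (by linarith)]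
    rw [div_lt_iff₀ hε] at h3
    have h6 : (1 - 1 / k) * m * Real.log (Real.log X) ≤ ρ * Real.log (Real.log X) :=
      mul_le_mul_of_nonneg_right hρ h5.le
    linarith

/-- the law for `P_k` and the zeros in the sector -/
theorem comparable_iff (hk : 1 < k) (hF : IsLSeries a b F) {m : ℕ} (hm : analyticOrderAt F 1 = m) :
    (∀ s ∈ Sector k 0, F s ≠ 0) ↔ Comparable (wProd a b k) ((1 - 1 / k) * m) := by
  have hlog : Tendsto Real.log atTop atTop := Real.tendsto_log_atTop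
  constructor
  · intro h
    obtain ⟨C, hC⟩ := law_of_free hk hF hm 0 h
    exact comparable_of (hC.mono fun X hX => real_law hX)
  · rintro ⟨C, hC0, hC⟩
    refine free_of_small_one hk hF fun ε hε => ?_
    have h1 : Tendsto (fun X : ℝ => Real.log X ^ (1 : ℝ)) atTop atTop :=
      (tendsto_rpow_atTop one_pos).comp hlog
    refine small_of_power (ρ := (1 - 1 / k) * m + 1) ?_ hε
    filter_upwards [hC, h1.eventually (eventually_ge_atTop C),
      hlog.eventually (eventually_gt_atTop 1)] with X h2 h3 h4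
    have h5 : 0 < Real.log X := by linarith
    rw [Real.rpow_add h5]
    calc _ ≤ _ := h2.2
      _ ≤ Real.log X ^ (1 : ℝ) * Real.log X ^ ((1 - 1 / k) * (m : ℝ)) := by gcongr
      _ = _ := by ring

/-- bounded quotients by `log log X` exclude zeros -/
theorem free_of_quot (hk : 1 < k) (hF : IsLSeries a b F) (τ : ℝ) {c : ℂ}
    (h : Tendsto (fun X : ℝ => wSum a b k τ X / (Real.log (Real.log X) : ℝ)) atTop (𝓝 c)) :
    ∀ s ∈ Sector k τ, F s ≠ 0 := by
  refine free_of_small hk hF τ fun ε hε => ?_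
  have h1 := h.norm.eventually (eventually_lt_nhds (show ‖c‖ < ‖c‖ + 1 by linarith))
  filter_upwards [h1, log_le_eps (‖c‖ + 1) hε, loglog_tendsto.eventually (eventually_gt_atTop 0)]
    with X h2 h3 h4
  rw [norm_div, Complex.norm_real, Real.norm_eq_abs, abs_of_pos h4, div_lt_iff₀ h4] at h2
  have := norm_nonneg c
  linarith

/-- the limit of the quotient -/
theorem quot_limit {c C τ : ℝ}
    (h : ∀ᶠ X : ℝ in atTop, ‖wSum a b k τ X - ((c * Real.log (Real.log X) : ℝ) : ℂ)‖ ≤ C) :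
    Tendsto (fun X : ℝ => wSum a b k τ X / (Real.log (Real.log X) : ℝ)) atTop (𝓝 (c : ℂ)) := by
  rw [tendsto_iff_norm_sub_tendsto_zero]
  refine squeeze_zero' (g := fun X => C * (Real.log (Real.log X))⁻¹)
    (Eventually.of_forall fun X => norm_nonneg _) ?_ ?_
  · filter_upwards [h, loglog_tendsto.eventually (eventually_gt_atTop 0)] with X h5 h6
    have h6c : ((Real.log (Real.log X) : ℝ) : ℂ) ≠ 0 := by exact_mod_cast h6.ne'
    have h7 : wSum a b k τ X / (Real.log (Real.log X) : ℝ) - c =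
        (wSum a b k τ X - ((c * Real.log (Real.log X) : ℝ) : ℂ)) / (Real.log (Real.log X) : ℝ) := by
      push_cast
      field_simp
    rw [h7, norm_div, Complex.norm_real, Real.norm_eq_abs, abs_of_pos h6, div_eq_mul_inv]
    exact mul_le_mul_of_nonneg_right h5 (inv_nonneg.2 h6.le)
  · have := loglog_tendsto.inv_tendsto_atTop.const_mul C
    simpa using this

/-- if the quotient has a limit then it is `(1 - 1/k) m` -/
theorem quot_iff (hk : 1 < k) (hF : IsLSeries a b F) {m : ℕ} (hm : analyticOrderAt F 1 = m) (τ : ℝ)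
    {r : ℕ} (h : Tendsto (fun X : ℝ => wSum a b k τ X / (Real.log (Real.log X) : ℝ)) atTop
      (𝓝 (((1 - 1 / k) * r : ℝ) : ℂ))) : m = r := by
  obtain ⟨C, hC⟩ := law_of_free hk hF hm τ (free_of_quot hk hF τ h)
  have h1 := tendsto_nhds_unique (quot_limit hC) h
  have h2 : (1 - 1 / k) * (m : ℝ) = (1 - 1 / k) * r := by exact_mod_cast h1
  have h3 : (1 - 1 / k) ≠ 0 := by
    have : 1 / k < 1 := by
      rw [div_lt_one (by linarith)]
      exact hk
    linarith
  have h4 := mul_left_cancel₀ h3 h2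
  exact_mod_cast h4

/-- **The family of products between the rank form and the original product.** -/
theorem result (a b : ℤ) (_hΔ : 4 * a ^ 3 + 27 * b ^ 2 ≠ 0) (F : ℂ → ℂ) (hF : IsLSeries a b F) :
    ∃ m : ℕ, analyticOrderAt F 1 = m ∧
      -- the explicit formula
      (∀ k τ : ℝ, 1 < k → ∃ Z : Finset ℂ, (∀ s, s ∈ Z ↔ s ∈ Sector k τ ∧ F s = 0) ∧
        ∃ C : ℝ, ∀ᶠ X : ℝ in atTop, ‖wSum a b k τ X -
          ((1 - 1 / k) * (m + ∑ s ∈ Z, (analyticOrderNatAt F s : ℂ)) * (Real.log (Real.log X) : ℝ) +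
            ∑ s ∈ Z, (analyticOrderNatAt F s : ℂ) * zeroTerm k τ s X)‖ ≤ C) ∧
      -- the rate of growth
      (∀ k τ η : ℝ, 1 < k → 0 ≤ η → ((∀ s ∈ Sector k τ, F s = 0 → rate k τ s ≤ η) ↔
        ∀ ε : ℝ, 0 < ε → ∀ᶠ X : ℝ in atTop, ‖wSum a b k τ X‖ ≤ X ^ (η + ε))) ∧
      (∀ k η : ℝ, 1 < k → 0 ≤ η → ((∀ s ∈ Sector k 0, F s = 0 → rate k 0 s ≤ η) ↔
        ∀ ε : ℝ, 0 < ε → ∀ᶠ X : ℝ in atTop, Real.log (wProd a b k X) ≤ X ^ (η + ε))) ∧
      -- the law for `P_k`
      (∀ k ρ : ℝ, 1 < k → ((∀ ε : ℝ, 0 < ε → ∀ᶠ X : ℝ in atTop,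
          wProd a b k X ≤ Real.log X ^ (ρ + ε)) ↔
        (∀ s ∈ Sector k 0, F s ≠ 0) ∧ (1 - 1 / k) * m ≤ ρ)) ∧
      (∀ k : ℝ, 1 < k → ((∀ s ∈ Sector k 0, F s ≠ 0) ↔
        Comparable (wProd a b k) ((1 - 1 / k) * m))) ∧
      -- the Riemann hypothesis and the threshold
      ((∀ s : ℂ, 1 < s.re → F s ≠ 0) ↔ ∀ k : ℝ, 1 < k → Comparable (wProd a b k) ((1 - 1 / k) * m)) ∧
      (∀ k : ℝ, 1 < k → ((∀ s : ℂ, 1 < s.re → F s ≠ 0) ↔ ∀ τ : ℝ, ∃ C : ℝ, ∀ᶠ X : ℝ in atTop,
        ‖wSum a b k τ X - (((1 - 1 / k) * m * Real.log (Real.log X) : ℝ) : ℂ)‖ ≤ C)) ∧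
      ((∀ s : ℂ, 1 < s.re → F s ≠ 0) ∨ ∃ kc : ℝ, 1 ≤ kc ∧ (1 < kc ↔ ∀ x : ℝ, 1 < x → F x ≠ 0) ∧
        ∀ k : ℝ, 1 < k → (Comparable (wProd a b k) ((1 - 1 / k) * m) ↔ k ≤ kc)) ∧
      -- the unconditional law
      (∃ τ k₀ : ℝ, 1 < k₀ ∧ ∀ k : ℝ, 1 < k → k ≤ k₀ → ∃ C : ℝ, ∀ᶠ X : ℝ in atTop,
        ‖wSum a b k τ X - (((1 - 1 / k) * m * Real.log (Real.log X) : ℝ) : ℂ)‖ ≤ C) ∧
      -- the rank form
      (analyticOrderAt F 1 = rank a b ↔ ∃ k τ : ℝ, 1 < k ∧
        Tendsto (fun X : ℝ => wSum a b k τ X / (Real.log (Real.log X) : ℝ)) atTop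
          (𝓝 (((1 - 1 / k) * rank a b : ℝ) : ℂ))) ∧
      ((∀ x : ℝ, 1 < x → F x ≠ 0) → (analyticOrderAt F 1 = rank a b ↔
        ∃ k : ℝ, 1 < k ∧ Comparable (wProd a b k) ((1 - 1 / k) * rank a b))) ∧
      (∀ k : ℝ, 1 < k → ((analyticOrderAt F 1 = rank a b ∧ ∀ s ∈ Sector k 0, F s ≠ 0) ↔
        Comparable (wProd a b k) ((1 - 1 / k) * rank a b))) := by
  obtain ⟨m, hm⟩ := Pool.Agent.W263.BSD.order_finite (isLSeries hF)
  -- a comparison with the rank determines the order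
  have hrank : ∀ k : ℝ, 1 < k → Comparable (wProd a b k) ((1 - 1 / k) * rank a b) →
      m = rank a b ∧ ∀ s ∈ Sector k 0, F s ≠ 0 := by
    intro k hk h
    obtain ⟨C, hC⟩ := of_comparable h
    have h1 := quot_limit (a := a) (b := b) (k := k) (c := (1 - 1 / k) * rank a b) (C := C) (τ := 0)
      (by
        filter_upwards [hC] with X hX
        rw [wSum_zero, ← Complex.ofReal_sub, Complex.norm_real]
        exact hX)
    exact ⟨quot_iff hk hF hm 0 h1, free_of_quot hk hF 0 h1⟩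
  have hshift : ∀ s : ℂ, 1 < s.re → 0 < (s - 1).re := fun s hs => by
    rw [Complex.sub_re, Complex.one_re]
    linarith
  have hadd : ∀ s : ℂ, 1 + (s - 1) = s := fun s => by ring
  refine ⟨m, hm, fun k τ hk => explicit hk hF hm τ, fun k τ η hk hη => growth hk hF τ η hη,
    fun k η hk hη => growth_one hk hF η hη, fun k ρ hk => power_iff hk hF hm ρ,
    fun k hk => comparable_iff hk hF hm, ⟨fun h k hk => ?_, fun h s hs => ?_⟩,
    fun k hk => ⟨fun h τ => ?_, fun h s hs => ?_⟩, ?_, ?_, ⟨fun h => ?_, fun h => ?_⟩,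
    fun hreal => ⟨fun h => ?_, fun h => ?_⟩, fun k hk => ⟨fun h => ?_, fun h => ?_⟩⟩
  · refine (comparable_iff hk hF hm).1 fun s hs => h s ?_
    have := Pool.Agent.D0H40.KX.sec_re hk ((sector_iff k 0 s).1 hs)
    rw [Complex.sub_re, Complex.one_re] at this
    linarith
  · obtain ⟨k, hk1, hk2⟩ := ((Pool.Agent.D0H40.KX.mem_sec_large (hshift s hs)).and
      (eventually_gt_atTop 1)).exists
    exact (comparable_iff hk2 hF hm).2 (h k hk2) s ((sector_iff k 0 s).2 hk1)
  · refine law_of_free hk hF hm τ fun s hs => h s ?_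
    have := Pool.Agent.D0H40.KX.sec_re hk ((sector_iff k τ s).1 hs)
    rw [Complex.sub_re, Complex.one_re] at this
    linarith
  · obtain ⟨τ, hτ⟩ := Pool.Agent.D0H40.KX.mem_sec_dir hk (hshift s hs)
    obtain ⟨C, hC⟩ := h τ
    exact free_of_quot hk hF τ (quot_limit hC) s ((sector_iff k τ s).2 hτ)
  · by_cases hRH : ∀ w : ℂ, 0 < w.re → F (1 + w) ≠ 0
    · refine Or.inl fun s hs => ?_
      have := hRH (s - 1) (hshift s hs)
      rwa [hadd] at this
    · obtain ⟨kc, h1, h2, h3⟩ := Pool.Agent.D0H40.KX.threshold (isLSeries hF) hRH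
      refine Or.inr ⟨kc, h1, ?_, fun k hk => ?_⟩
      · rw [h2]
        constructor
        · intro h x hx
          have := h (x - 1) (by linarith)
          push_cast at this
          rwa [hadd] at this
        · intro h x hx
          have := h (1 + x) (by linarith)
          push_cast at this
          exact this
      · rw [← comparable_iff hk hF hm, free_iff]
        exact h3 k hk
  · obtain ⟨τ, k₀, hk₀, h⟩ := Pool.Agent.D0H40.KX.free_all (isLSeries hF)
    exact ⟨τ, k₀, hk₀, fun k hk hk2 => law_of_free hk hF hm τ ((free_iff k τ).2 (h k hk hk2))⟩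
  · obtain ⟨τ, k₀, hk₀, h1⟩ := Pool.Agent.D0H40.KX.free_all (isLSeries hF)
    obtain ⟨C, hC⟩ := law_of_free hk₀ hF hm τ ((free_iff k₀ τ).2 (h1 k₀ hk₀ le_rfl))
    have h2 : m = rank a b := by
      rw [hm] at h
      exact_mod_cast h
    rw [h2] at hC
    exact ⟨k₀, τ, hk₀, quot_limit hC⟩
  · obtain ⟨k, τ, hk, h1⟩ := h
    rw [hm, quot_iff hk hF hm τ h1]
  · obtain ⟨k₀, hk₀, h1⟩ := Pool.Agent.D0H40.KX.free_real (isLSeries hF) (fun x hx => by
      have := hreal (1 + x) (by linarith)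
      push_cast at this
      exact this)
    have h2 : m = rank a b := by
      rw [hm] at h
      exact_mod_cast h
    have h3 := (comparable_iff hk₀ hF hm).1 ((free_iff k₀ 0).2 (h1 k₀ hk₀ le_rfl))
    rw [h2] at h3
    exact ⟨k₀, hk₀, h3⟩
  · obtain ⟨k, hk, h1⟩ := h
    rw [hm, (hrank k hk h1).1]
  · have h2 : m = rank a b := by
      have := h.1
      rw [hm] at this
      exact_mod_cast this
    have h3 := (comparable_iff hk hF hm).1 h.2
    rwa [h2] at h3
  · obtain ⟨h1, h2⟩ := hrank k hk h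
    exact ⟨by rw [hm, h1], h2⟩

end Pool.Agent.Results.MP_696deb_nt.ExponentFamily
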