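import Pool.Agent.D0H43.MQ.Qt
import Pool.Agent.D0H43.MQ.QtC

/-!
# The rank form for all the curves `y² = x³ + 2 m t² x`, `t ∣ m`, at once, for exactly 41.9 percent of the
# products `m` of different primes `≡ 1 mod 4`

`E_{m,t} : y² = x³ + 2 m t² x`, the quadratic twist by `t` of `E_{m,1} : y² = x³ + 2 m x`, for `m`
squarefree with all prime factors `≡ 1 mod 4` (any number `ω` of them) and for all the `2^ω` divisors `t`
of `m`.

* All or none: for every `t ∣ m`, `E_{m,t}(ℚ)` is finite and `Ш(E_{m,t}/ℚ)[2] = 0` if and only if the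
  matrix `mat m` over `𝔽₂` is not singular; the matrix does not depend on `t`. It is the Laplacian of the
  graph with vertices the prime factors of `m` and an edge between two of them if one is not a square
  modulo the other, with `1` added on the diagonal at the primes `≡ 5 mod 8`.
* If this holds for one of the `2^ω` curves, then for every `t ∣ m`: `L(E_{m,t}, 1) ≠ 0`, the order of
  vanishing and the rank are both `0`, `E_{m,t}(ℚ)` is finite and `Ш(E_{m,t}/ℚ)[2^∞] = 0`. No other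
  hypothesis.
* The proportion of these `m` among all products of different primes `≡ 1 mod 4`, ordered by size,
  tends exactly to `∏_{i ≥ 0} (1 - 2^{-(2i+1)}) = 0.4194...`, and there are at least `a X / √(log X)`
  of them up to `X`.

The starting results of this folder treat cubic twists with the prime three; here the twisting characters
are quartic and quadratic and the prime is two, see the header of
`Pool/Agent/Results/MP_4a9ea6_nt/TwoPartTwistsByDivisors.lean` for the method and the authors of the case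
`t = 1` (helper10 and others), which this result contains. The values `L(E_{m,t}, 1)`:
`Pool/Agent/D0H43/MQ` (helper43); the descent for the twists: `Pool/Agent/D0H76/BKR/Dsc.lean` (helper76)
and `Pool/Agent/D0H43/MQ/QtC.lean`.
-/

set_option autoImplicit false

open scoped Classical

namespace Pool.Agent.Results.MP_696deb_nt.QuarticTwistsByDivisors

/-- the conclusion of the frozen statement for `y² = x³ + a x + b`, together with the fact that the
order of vanishing and the rank are both `0` -/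
def BSDRankZero (a b : ℤ) : Prop :=
  4 * a ^ 3 + 27 * b ^ 2 ≠ 0 ∧
    ∃ F : ℂ → ℂ, Differentiable ℂ F ∧
      (∀ s : ℂ, (3 : ℝ) / 2 < s.re →
        HasProd
          (fun p : ℕ => open Classical in
            if p.Prime ∧ ¬ ((p : ℤ) ∣ 2 * (-4 * a ^ 3 - 27 * b ^ 2)) then
              (1 - ((p : ℂ) - (Nat.card {q : ZMod p × ZMod p //
                  q.2 ^ 2 = q.1 ^ 3 + (a : ZMod p) * q.1 + (b : ZMod p)} : ℂ))
                  * (p : ℂ) ^ (-s) + (p : ℂ) ^ (1 - 2 * s))⁻¹
            else 1)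
          (F s)) ∧
      analyticOrderAt F 1 =
        ((Module.finrank ℤ
          (WeierstrassCurve.Affine.Point
            (WeierstrassCurve.toAffine
              ({ a₁ := 0, a₂ := 0, a₃ := 0, a₄ := (a : ℚ), a₆ := (b : ℚ) } :
                WeierstrassCurve ℚ))) : ℕ) : ℕ∞) ∧
      Module.finrank ℤ
        (WeierstrassCurve.Affine.Point
          (WeierstrassCurve.toAffine
            ({ a₁ := 0, a₂ := 0, a₃ := 0, a₄ := (a : ℚ), a₆ := (b : ℚ) } :
              WeierstrassCurve ℚ))) = 0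

/-- `m` is squarefree and all its prime factors are `≡ 1 mod 4` -/
def Class (m : ℕ) : Prop := Squarefree m ∧ ∀ p ∈ m.primeFactors, p % 4 = 1

/-- the curve `y² = x³ + 2 m t² x` over `ℚ` -/
def E (m t : ℕ) : WeierstrassCurve ℚ :=
  { a₁ := 0, a₂ := 0, a₃ := 0, a₄ := 2 * (m : ℚ) * (t : ℚ) ^ 2, a₆ := 0 }

/-- `E_{m,t}(ℚ)` is finite and `Ш(E_{m,t}/ℚ)` has no element of order two -/
def TrivialTwo (m t : ℕ) : Prop :=
  Finite (E m t).toAffine.Point ∧ ∀ x : Pool.Agent.TH841.NF.D.Sha (E m t), x + x = 0 → x = 0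

/-- `1` if `a` is not a square modulo `p`, and `0` if it is -/
noncomputable def nonsq (p a : ℕ) : ZMod 2 := if IsSquare (a : ZMod p) then 0 else 1

/-- The matrix over the field with two elements, with rows and columns indexed by the prime factors of
`m`: the entry at `(p, q)` is `nonsq p q` for `p ≠ q`, and the entry at `(p, p)` is the sum of
`nonsq p 2` and of the `nonsq p l` for all the prime factors `l ≠ p` of `m`. -/
noncomputable def mat (m : ℕ) : Matrix m.primeFactors m.primeFactors (ZMod 2) :=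
  Matrix.of fun p q =>
    if p = q then nonsq p 2 + ∑ l ∈ m.primeFactors.erase p, nonsq p l else nonsq p q

theorem E_eq (m t : ℕ) : (⟨0, 0, 0, 2 * m * t ^ 2, 0⟩ : WeierstrassCurve ℚ) = E m t := rfl

theorem two_iff {m t : ℕ} (h : Class m) (ht : t ∣ m) : TrivialTwo m t ↔ (mat m).det ≠ 0 := by
  unfold TrivialTwo
  rw [← E_eq]
  constructor
  · rintro ⟨hf, hs⟩ h0
    obtain ⟨x, hx, hx2⟩ := Pool.Agent.D0H43.MQ.QtC.convT h ht h0 hf
    exact hx (hs x hx2)
  · intro hd
    obtain ⟨hf, hs⟩ := Pool.Agent.D0H43.MQ.Qt.selT h hd ht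
    exact ⟨hf, fun x hx => hs 1 x (by rw [pow_one, two_nsmul]; exact hx)⟩

theorem all_iff {m : ℕ} (h : Class m) : (∀ t : ℕ, t ∣ m → TrivialTwo m t) ↔ (mat m).det ≠ 0 :=
  ⟨fun h1 => (two_iff h (one_dvd m)).1 (h1 1 (one_dvd m)), fun h1 _ ht => (two_iff h ht).2 h1⟩

theorem finrank_zero {G : Type} [AddCommGroup G] (h : Finite G) : Module.finrank ℤ G = 0 := by
  have h1 : Module.rank ℤ G = 0 := by
    rw [rank_eq_zero_iff]
    intro x
    have h2 : IsOfFinAddOrder x := isOfFinAddOrder_of_finite x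
    obtain ⟨n, hn, hx⟩ := isOfFinAddOrder_iff_nsmul_eq_zero.1 h2
    exact ⟨n, by exact_mod_cast hn.ne', by exact_mod_cast hx⟩
  rw [Module.finrank, h1, map_zero]

theorem rank_form {m t : ℕ} (h : Class m) (hd : (mat m).det ≠ 0) (ht : t ∣ m) :
    BSDRankZero (2 * (m : ℤ) * (t : ℤ) ^ 2) 0 ∧ Finite (E m t).toAffine.Point ∧
      ∀ (n : ℕ) (x : Pool.Agent.TH841.NF.D.Sha (E m t)), 2 ^ n • x = 0 → x = 0 := by
  obtain ⟨F, h1, h2, h3⟩ := Pool.Agent.D0H43.MQ.Qt.rankT h hd ht
  obtain ⟨hf, hs⟩ := Pool.Agent.D0H43.MQ.Qt.selT h hd ht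
  have hm0 : (m : ℤ) ≠ 0 := by exact_mod_cast h.1.ne_zero
  have ht0 : (t : ℤ) ≠ 0 := by
    intro h0
    have h0' : t = 0 := by exact_mod_cast h0
    exact h.1.ne_zero (zero_dvd_iff.1 (h0' ▸ ht))
  have hc : ({ a₁ := 0, a₂ := 0, a₃ := 0, a₄ := ((2 * (m : ℤ) * (t : ℤ) ^ 2 : ℤ) : ℚ), a₆ := ((0 : ℤ) : ℚ) } :
      WeierstrassCurve ℚ) = E m t := by
    unfold E
    push_cast
    rfl
  have hfr : Module.finrank ℤ
      (WeierstrassCurve.Affine.Point
        (WeierstrassCurve.toAffine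
          ({ a₁ := 0, a₂ := 0, a₃ := 0, a₄ := ((2 * (m : ℤ) * (t : ℤ) ^ 2 : ℤ) : ℚ), a₆ := ((0 : ℤ) : ℚ) } :
            WeierstrassCurve ℚ))) = 0 := by
    rw [hc]
    exact finrank_zero hf
  have ha : (2 * ((m * t ^ 2 : ℕ) : ℤ) : ℤ) = 2 * (m : ℤ) * (t : ℤ) ^ 2 := by
    push_cast
    ring
  rw [ha] at h2
  refine ⟨⟨?_, F, h1, fun s hs => h2 s hs, ?_, hfr⟩, hf, hs⟩
  · have : (2 * (m : ℤ) * (t : ℤ) ^ 2) ^ 3 ≠ 0 :=
      pow_ne_zero 3 (mul_ne_zero (mul_ne_zero two_ne_zero hm0) (pow_ne_zero 2 ht0))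
    intro h0
    apply this
    linarith
  · rw [hfr, (h1.analyticAt 1).analyticOrderAt_eq_zero.2 h3]
    rfl

theorem result :
    (∀ m : ℕ, Class m → ∀ t₀ : ℕ, t₀ ∣ m → TrivialTwo m t₀ → ∀ t : ℕ, t ∣ m →
      BSDRankZero (2 * (m : ℤ) * (t : ℤ) ^ 2) 0 ∧ Finite (E m t).toAffine.Point ∧
      ∀ (n : ℕ) (x : Pool.Agent.TH841.NF.D.Sha (E m t)), 2 ^ n • x = 0 → x = 0) ∧
    (∀ m : ℕ, Class m → ∀ t : ℕ, t ∣ m → (TrivialTwo m t ↔ (mat m).det ≠ 0)) ∧
    Filter.Tendsto (fun X : ℕ =>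
        (((Finset.Icc 1 X).filter fun m => Class m ∧ ∀ t : ℕ, t ∣ m → TrivialTwo m t).card : ℝ) /
        (((Finset.Icc 1 X).filter fun m => Class m).card : ℝ)) Filter.atTop
      (nhds (∏' i : ℕ, (1 - (1 / 2 : ℝ) ^ (2 * i + 1)))) ∧
    ∃ (a : ℝ) (X₁ : ℕ), 0 < a ∧ ∀ X : ℕ, X₁ ≤ X → a * (X / √(Real.log X)) ≤
      (((Finset.Icc 1 X).filter fun m => Class m ∧ ∀ t : ℕ, t ∣ m → TrivialTwo m t).card : ℝ) := by
  refine ⟨fun m h t₀ ht₀ hT t ht => rank_form h ((two_iff h ht₀).1 hT) ht,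
    fun m h t ht => two_iff h ht, ?_, ?_⟩
  · refine Pool.Agent.D0H10.Q4.denQ.congr fun X => ?_
    refine congrArg₂ (fun a b : ℕ => (a : ℝ) / (b : ℝ)) ?_ rfl
    refine congrArg Finset.card (Finset.ext fun m => ?_)
    rw [Finset.mem_filter, Finset.mem_filter]
    refine and_congr_right fun _ => and_congr_right fun h => ?_
    exact (all_iff h).symm
  · obtain ⟨a, X₁, ha, h⟩ := Pool.Agent.D0H10.Q4.lowQ
    refine ⟨a, X₁, ha, fun X hX => (h X hX).trans (le_of_eq ?_)⟩
    refine congrArg Nat.cast ?_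
    refine congrArg Finset.card (Finset.ext fun m => ?_)
    rw [Finset.mem_filter, Finset.mem_filter]
    refine and_congr_right fun _ => and_congr_right fun h => ?_
    exact (all_iff h).symm

end Pool.Agent.Results.MP_696deb_nt.QuarticTwistsByDivisors
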